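import Pool.Agent.MP_f6b137_pr.H74.Base

/-! Few zeros near the end points and outside the interval. -/

namespace Pool.Agent.MP_f6b137_pr.H70

open MeasureTheory ProbabilityTheory Filter Topology Polynomial Pool.Agent.MP_f6b137_pr.H74
open scoped Real RealInnerProductSpace

noncomputable section

namespace OUT

variable {μ : Measure ℝ} {C₀ : ℝ} {s : ℕ} {p : ℕ → ℝ[X]} {D : ℕ}

lemma cell {N : ℕ} (hN : 1 ≤ N) {θ : ℝ} (h0 : 0 ≤ θ) (h1 : θ ≤ π) :
    ∃ j < N, |θ - ctr N j| ≤ 2 * π / N := by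
  have hN' : (0 : ℝ) < N := by exact_mod_cast hN
  have hπ := Real.pi_pos
  obtain ⟨u, hu⟩ : ∃ u, u = θ * N / π := ⟨_, rfl⟩
  have hu0 : 0 ≤ u := by rw [hu]; positivity
  have hu1 : u ≤ N := by rw [hu, div_le_iff₀ hπ]; nlinarith
  obtain ⟨j, hj, h2, h3⟩ : ∃ j < N, (j : ℝ) ≤ u ∧ u ≤ j + 1 := by
    rcases hu1.eq_or_lt with h | h
    · refine ⟨N - 1, by omega, ?_⟩
      rw [Nat.cast_sub hN, h]
      constructor <;> simp
    · exact ⟨⌊u⌋₊, (Nat.floor_lt hu0).2 h, Nat.floor_le hu0, (Nat.lt_floor_add_one u).le⟩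
  refine ⟨j, hj, ?_⟩
  rw [show θ - ctr N j = (u - (j + 1 / 2)) * (π / N) by rw [hu, ctr]; field_simp, abs_mul,
    abs_of_pos (div_pos hπ hN'), mul_div_assoc]
  exact mul_le_mul_of_nonneg_right (abs_le.2 ⟨by linarith, by linarith⟩) (div_pos hπ hN').le

lemma sup (hMZ : RowMZ) (h : Dbl μ C₀ s) : ∃ K : ℝ, 0 ≤ K ∧ ∀ (N : ℕ) (f : ℝ[X]), 1 ≤ N →
    f.natDegree ≤ 2 * N → ∀ x ∈ Set.Icc (-1 : ℝ) 1,
      f.eval x ^ 2 ≤ K ^ 2 * (N : ℝ) ^ s * ∫ θ, f.eval (Real.cos θ) ^ 2 ∂μ := by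
  obtain ⟨A, hA, hM⟩ := hMZ μ C₀ s h
  have hC := h.C_pos
  have hp := h.pos
  refine ⟨√(C₀ * A / μ.real Set.univ), Real.sqrt_nonneg _, fun N f hN hf x hx => ?_⟩
  obtain ⟨S, h1, h2⟩ := hM N f hN hf
  obtain ⟨j, hj, h3⟩ := cell hN (Real.arccos_nonneg x) (Real.arccos_le_pi x)
  have h4 := h1 j hj (Real.arccos x) (by
    rwa [← Complex.ofReal_sub, Complex.norm_real, Real.norm_eq_abs])
  rw [← Complex.ofReal_cos, Real.cos_arccos hx.1 hx.2,
    show aeval (x : ℂ) f = (f.eval x : ℝ) from aeval_ofReal (K := ℂ) f x, Complex.norm_real,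
    Real.norm_eq_abs, sq_abs] at h4
  have h5 := (Finset.single_le_sum (f := fun j => mass μ N j * S j) (fun i hi =>
    mul_nonneg (mass_nonneg _ _ _) ((sq_nonneg _).trans (h1 i (Finset.mem_range.1 hi) (ctr N i)
      (by rw [sub_self, norm_zero]; positivity)))) (Finset.mem_range.2 hj)).trans h2
  rw [Real.sq_sqrt (by positivity), div_mul_eq_mul_div, div_mul_eq_mul_div, le_div_iff₀ hp]
  calc f.eval x ^ 2 * μ.real Set.univ ≤ S j * (C₀ * (N : ℝ) ^ s * mass μ N j) :=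
        mul_le_mul h4 (h.mass_low hj) hp.le ((sq_nonneg _).trans h4)
    _ = C₀ * (N : ℝ) ^ s * (mass μ N j * S j) := by ring
    _ ≤ C₀ * (N : ℝ) ^ s * (A * ∫ θ, f.eval (Real.cos θ) ^ 2 ∂μ) :=
        mul_le_mul_of_nonneg_left h5 (by positivity)
    _ = _ := by ring

/-- the scaled evaluation vector -/
def Kz (p : ℕ → ℝ[X]) (n : ℕ) (φ : ℕ → ES D) (a z : ℝ) : ES D :=
  a • ∑ k ∈ Finset.range (n + 1), (p k).eval z • φ k

lemma inner_Kz (n : ℕ) (φ : ℕ → ES D) (a z : ℝ) (W : ES D) :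
    ⟪Kz p n φ a z, W⟫ = a * (Pw p n φ W).eval z := by
  unfold Kz Pw
  rw [real_inner_smul_left, sum_inner, eval_finsetSum]
  simp only [real_inner_smul_left, eval_mul, eval_C, mul_comm]

lemma low [IsFiniteMeasure μ] (h : ONP μ p) (hp : 0 < μ.real Set.univ) {n : ℕ} {φ : ℕ → ES D}
    (hφ : ONf φ (n + 1)) {c σ : ℝ} (hc : 0 < c) (hσ : σ = 1 ∨ σ = -1) :
    1 / (2 * √(μ.real Set.univ)) ≤ ‖Kz p n φ (c ^ n) (σ * ((c + c⁻¹) / 2))‖ := by
  obtain ⟨y, h1, h2⟩ := h.exists_test hφ (Chebyshev.T ℝ n) (by simp [Chebyshev.natDegree_T])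
  have h3 : ‖y‖ ≤ √(μ.real Set.univ) := by
    refine Real.le_sqrt_of_sq_le (h2.trans_le ?_)
    refine (integral_mono_of_nonneg (.of_forall fun θ => sq_nonneg _) (integrable_const (1 : ℝ))
      (.of_forall fun θ => ?_)).trans (by simp)
    simp only [Chebyshev.T_real_cos]
    exact Real.cos_sq_le_one _
  have h4 := abs_real_inner_le_norm (Kz p n φ (c ^ n) (σ * ((c + c⁻¹) / 2))) y
  have h5 : |(Chebyshev.T ℝ n).eval (σ * ((c + c⁻¹) / 2))| = (c ^ n + (c ^ n)⁻¹) / 2 := by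
    have e : |(Chebyshev.T ℝ n).eval ((c + c⁻¹) / 2)| = (c ^ n + (c ^ n)⁻¹) / 2 := by
      rw [← Real.cosh_log hc, Chebyshev.T_real_cosh, Int.cast_natCast, ← Real.log_pow,
        Real.cosh_log (pow_pos hc n), abs_of_pos (by positivity)]
    rcases hσ with rfl | rfl
    · rw [one_mul, e]
    · rw [neg_one_mul, Chebyshev.T_eval_neg, abs_mul, e, Int.cast_negOnePow_natCast, abs_pow,
        abs_neg, abs_one, one_pow, one_mul]
  have h6 : 0 < c ^ n := pow_pos hc n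
  rw [inner_Kz, h1, abs_mul, h5, abs_of_pos h6] at h4
  have h7 : c ^ n * ((c ^ n + (c ^ n)⁻¹) / 2) = ((c ^ n) ^ 2 + 1) / 2 := by field_simp
  rw [div_le_iff₀ (by positivity)]
  nlinarith [mul_le_mul_of_nonneg_left h3 (norm_nonneg (Kz p n φ (c ^ n) (σ * ((c + c⁻¹) / 2)))),
    sq_nonneg (c ^ n)]

/-- the centres -/
def cc (L i : ℕ) : ℝ := if i < L then 1 - 3 / 4 / 2 ^ i else 1

lemma cc_pos (L i : ℕ) : 0 < cc L i := by
  unfold cc
  split_ifs
  · have : (3 : ℝ) / 4 / 2 ^ i ≤ 3 / 4 := div_le_self (by norm_num) (one_le_pow₀ one_le_two)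
    linarith
  · exact one_pos

open Classical in
lemma card_le (f : ℝ[X]) (a : ℝ) : (f.roots.toFinset.filter fun x => a ≤ |x|).card ≤
    (f.roots.toFinset.filter fun x => a ≤ x).card +
      ((f.comp (-X)).roots.toFinset.filter fun x => a ≤ x).card := by
  refine le_trans (Finset.card_le_card fun x hx => ?_) ((Finset.card_union_le _ _).trans
    (Nat.add_le_add_left (Finset.card_image_le (f := fun x : ℝ => -x)) _))
  simp only [Finset.mem_filter, Multiset.mem_toFinset, Finset.mem_union, Finset.mem_image,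
    roots_comp_neg_X, Multiset.mem_map] at hx ⊢
  rcases le_abs.1 hx.2 with h | h
  · exact .inl ⟨hx.1, h⟩
  · exact .inr ⟨-x, ⟨⟨x, hx.1, rfl⟩, h⟩, neg_neg x⟩

end OUT

open OUT in
theorem rowOUT : OfOUT := by
  intro hSB hMZ h0 μ C₀ s p hD hO ε hε
  have := hD.fin
  obtain ⟨K, hK, hsup⟩ := sup hMZ hD
  obtain ⟨r, hr⟩ : ∃ r, r = √(μ.real Set.univ) := ⟨_, rfl⟩
  have hr0 : 0 < r := by rw [hr]; exact Real.sqrt_pos.2 hD.pos
  obtain ⟨l₀, hl₀⟩ := eventually_atTop.1 ((tendsto_pow_const_div_const_pow_of_one_lt 4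
    one_lt_two).eventually (ge_mem_nhds (show 0 < ε / (16 * ((s : ℝ) + 7) ^ 2) by positivity)))
  obtain ⟨N₁, hN₁⟩ := exists_nat_ge (64 * Real.exp 48 * K + 12 * r + 3)
  refine ⟨13 + 2 ^ l₀ + N₁, fun N n D φ hN hR hφ => ?_⟩
  obtain ⟨L, hL⟩ : ∃ L, L = Nat.clog 2 N := ⟨_, rfl⟩
  have hp2 : 0 < 2 ^ l₀ := by positivity
  have a1 : N ≤ 2 ^ L := hL ▸ Nat.le_pow_clog one_lt_two N
  have a2 : 2 ^ (L - 1) < N := hL ▸ Nat.pow_pred_clog_lt_self one_lt_two (by omega)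
  have a3 : l₀ ≤ L := (Nat.pow_le_pow_iff_right one_lt_two).1 (by omega)
  have a4 : L - 1 < 2 ^ (L - 1) := Nat.lt_two_pow_self
  have a5 : 2 ^ (L + 1) ≤ 4 * 2 ^ (L - 1) :=
    (Nat.pow_le_pow_right two_pos (by omega : L + 1 ≤ 2 + (L - 1))).trans_eq (pow_add 2 2 _)
  obtain ⟨hR1, hR2⟩ := hR
  have b1 : (N₁ : ℝ) ≤ N := by exact_mod_cast (by omega : N₁ ≤ N)
  have b2 : (N : ℝ) ≤ n + 1 := by exact_mod_cast hR1
  have b3 : (n : ℝ) ≤ 2 * N := by exact_mod_cast hR2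
  have b4 : (12 : ℝ) ≤ n := by exact_mod_cast (by omega : 12 ≤ n)
  have b5 : (L : ℝ) + 1 ≤ 3 * n := by exact_mod_cast (by omega : L + 1 ≤ 3 * n)
  have b6 : (2 : ℝ) ^ (L + 1) ≤ 4 * n := by exact_mod_cast (by omega : 2 ^ (L + 1) ≤ 4 * n)
  have b7 : (1 : ℝ) ≤ N := by exact_mod_cast (by omega : 1 ≤ N)
  have b8 : (N : ℝ) ≤ 2 ^ L := by exact_mod_cast a1
  have hn : (0 : ℝ) < n := by linarith
  have he : 0 ≤ 64 * Real.exp 48 * K := by positivity
  have hB : ∀ σ : ℝ, σ = 1 ∨ σ = -1 → (gam D).real (⋃ i ∈ Finset.range (L + 1),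
      {W | |⟪Kz p n φ (cc L i ^ n) (σ * ((cc L i + (cc L i)⁻¹) / 2)), W⟫| ≤ 1 / (n : ℝ) ^ 4}) ≤
      6 * r / (n : ℝ) ^ 3 := fun σ hσ => by
    refine (measureReal_biUnion_finset_le _ _).trans ((Finset.sum_le_sum fun i _ =>
      hSB.one D _ (1 / (2 * r)) _ (by positivity) (hr ▸ low hO hD.pos hφ (cc_pos L i) hσ)
        (by positivity)).trans ?_)
    rw [Finset.sum_const, Finset.card_range, nsmul_eq_mul, Nat.cast_add_one]
    refine (mul_le_mul_of_nonneg_right b5 (by positivity)).trans_eq ?_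
    field_simp
    norm_num
  have hA := hSB.coef D (n + 1) φ ((n : ℝ) ^ 4) (by positivity) hφ
  refine le_trans (measureReal_mono fun W hW => ?_) ((measureReal_union_le _ _).trans
    ((add_le_add hA ((measureReal_union_le _ _).trans
      (add_le_add (hB 1 (.inl rfl)) (hB (-1) (.inr rfl))))).trans ?_))
  · by_contra hc
    simp only [Set.mem_union, Set.mem_iUnion, Set.mem_ofPred_eq, not_or, not_exists, not_le,
      inner_Kz, one_mul, neg_one_mul, Finset.mem_range] at hc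
    obtain ⟨c1, c2, c3⟩ := hc
    have hd := natDegree_Pw hO.deg n φ W
    have s1 : ∀ x ∈ Set.Icc (-1 : ℝ) 1, |(Pw p n φ W).eval x| ≤ K * N ^ s * n ^ 2 := fun x hx => by
      refine abs_le_of_sq_le_sq ((hsup N _ (by omega) (hd.trans hR2) x hx).trans ?_)
        (by positivity)
      rw [hO.int_Pw, mul_pow, mul_pow, ← pow_mul (n : ℝ)]
      exact mul_le_mul (mul_le_mul_of_nonneg_left (le_self_pow₀ (one_le_pow₀ b7) two_ne_zero)
        (sq_nonneg K)) c1.le (Finset.sum_nonneg fun _ _ => sq_nonneg _) (by positivity)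
    have s2 : Real.exp 48 * (K * N ^ s * n ^ 2) ≤ 2 ^ ((s + 7) * L) * (1 / (n : ℝ) ^ 4) := by
      rw [mul_one_div, le_div_iff₀ (by positivity), mul_comm (s + 7), pow_mul]
      calc Real.exp 48 * (K * N ^ s * n ^ 2) * n ^ 4 = Real.exp 48 * K * N ^ s * n ^ 6 := by ring
        _ ≤ Real.exp 48 * K * N ^ s * (2 * N) ^ 6 := by gcongr
        _ = 64 * Real.exp 48 * K * N ^ (s + 6) := by ring
        _ ≤ N * N ^ (s + 6) := mul_le_mul_of_nonneg_right (by linarith) (by positivity)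
        _ = N ^ (s + 7) := by ring
        _ ≤ _ := by gcongr
    have s3 : ∀ c : ℝ, (c = 1 ∨ ∃ i < L, c = 1 - 3 / 4 / 2 ^ i) → ∃ i < L + 1, c = cc L i := by
      rintro c (rfl | ⟨i, hi, rfl⟩)
      · exact ⟨L, by omega, by simp [cc]⟩
      · exact ⟨i, by omega, by simp [cc, hi]⟩
    have k1 := h0 N n L ((s + 7) * L) (Pw p n φ W) _ (by omega) hR2 hd a1 s1 fun c hc => by
      obtain ⟨i, hi, rfl⟩ := s3 c hc
      exact s2.trans_lt (mul_lt_mul_of_pos_left (c2 i hi) (by positivity))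
    have k2 := h0 N n L ((s + 7) * L) ((Pw p n φ W).comp (-X)) (K * N ^ s * n ^ 2) (by omega) hR2
      (natDegree_comp_le.trans (by simpa using hd)) a1
      (fun x hx => by
        rw [eval_comp, eval_neg, eval_X]
        exact s1 _ ⟨by linarith [hx.2], by linarith [hx.1]⟩)
      fun c hc => by
        obtain ⟨i, hi, rfl⟩ := s3 c hc
        rw [eval_comp, eval_neg, eval_X]
        exact s2.trans_lt (mul_lt_mul_of_pos_left (c3 i hi) (by positivity))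
    have k3 := (Nat.cast_le (α := ℝ)).2 ((card_le _ _).trans (add_le_add k1 k2))
    have k4 := hl₀ (L + 1) (by omega)
    rw [div_le_div_iff₀ (by positivity) (by positivity)] at k4
    push_cast at k3 k4
    refine absurd (hW.trans_le (pow_le_pow_left₀ (Nat.cast_nonneg _) k3 2)) (not_lt.2 ?_)
    calc _ ≤ (2 * (((L : ℝ) + 1) * (((s : ℝ) + 7) * (L + 1)))) ^ 2 := by
          rw [← two_mul]
          gcongr
          linarith
      _ = ((L : ℝ) + 1) ^ 4 * (16 * ((s : ℝ) + 7) ^ 2) / 4 := by ring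
      _ ≤ _ := by nlinarith
  · rw [Nat.cast_add_one, show ((n : ℝ) + 1) / n ^ 4 + (6 * r / n ^ 3 + 6 * r / n ^ 3) =
      (1 + (n : ℝ)⁻¹ + 12 * r) / n * (1 / n ^ 2) by field_simp; ring]
    refine mul_le_of_le_one_left (by positivity) ((div_le_one hn).2 ?_)
    have : (n : ℝ)⁻¹ ≤ 1 := inv_le_one_of_one_le₀ (by linarith)
    linarith

end

end Pool.Agent.MP_f6b137_pr.H70
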